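import Pool.Agent.Lib.MP_305fdd_al.LF.Fin
import Pool.Agent.Lib.MP_305fdd_al.LF.P.c5
import Pool.Agent.Lib.MP_305fdd_al.LF.P.c5N

/-!
# MP_305fdd_al: fibred groups among the finitely presented groups with separable subgroups

A group is called LERF if every finitely generated subgroup is an intersection of subgroups of finite
index. The fundamental groups of hyperbolic 3-manifolds of finite volume are LERF (Agol, Wise) and
finitely presented, and so are the lattices of `PSL(2,ℂ)`.

`result`: part 1 is about the groups `BundleGroup β = F₂ ⋊_β ℤ` of once-punctured torus bundles, part 2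
about groups `Γ` which map onto `ℤ` with a kernel which is finitely generated and profinitely rigid
in the absolute sense.
-/

set_option autoImplicit false

namespace Pool.Agent.Results.MP_305fdd_al.AmongSeparableGroups

open Pool.Agent.MP_305fdd_al

/-- locally extended residually finite: every finitely generated subgroup is an intersection of
subgroups of finite index -/
def LERF (G : Type) [Group G] : Prop :=
  ∀ H : Subgroup G, H.FG → ∀ x : G, x ∉ H → ∃ U : Subgroup G, U.FiniteIndex ∧ H ≤ U ∧ x ∉ U

/-- the exponent sum of the generator `i` -/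
def expSum (i : Fin 2) : FreeGroup (Fin 2) →* Multiplicative ℤ :=
  FreeGroup.lift fun k => Multiplicative.ofAdd (if k = i then 1 else 0)

/-- the matrix through which an automorphism of the free group of rank two acts on `ℤ ^ 2` -/
def abMat (β : MulAut (FreeGroup (Fin 2))) : Matrix (Fin 2) (Fin 2) ℤ :=
  Matrix.of fun i j => Multiplicative.toAdd (expSum i (β (FreeGroup.of j)))

/-- The group of the once-punctured torus bundle with monodromy `β`. -/
abbrev BundleGroup (β : MulAut (FreeGroup (Fin 2))) : Type :=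
  FreeGroup (Fin 2) ⋊[zpowersHom (MulAut (FreeGroup (Fin 2))) β] Multiplicative ℤ

/-- the greatest `m` such that the matrix is scalar modulo `m` (`0` if the matrix is scalar) -/
def content (A : Matrix (Fin 2) (Fin 2) ℤ) : ℕ :=
  Nat.gcd (Int.gcd (A 0 1) (A 1 0)) (Int.natAbs (A 0 0 - A 1 1))

theorem abMat_eq (β : MulAut (FreeGroup (Fin 2))) : abMat β = (F2X.AM β).val := by
  have h : ∀ (w : FreeGroup (Fin 2)) (i : Fin 2),
      Multiplicative.toAdd (expSum i w) = F2X.vec w i := by
    intro w i
    let g : FreeGroup (Fin 2) →* Multiplicative ℤ :=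
      (AddMonoidHom.toMultiplicative (Pi.evalAddMonoidHom (fun _ : Fin 2 => ℤ) i)).comp F2X.abh
    have h1 : expSum i = g := by
      ext k
      show Multiplicative.toAdd (expSum i (FreeGroup.of k)) = F2X.vec (FreeGroup.of k) i
      rw [F2X.vec_of, Pi.single_apply]
      unfold expSum
      rw [FreeGroup.lift_apply_of]
      show (if k = i then (1 : ℤ) else 0) = _
      simp only [eq_comm]
    exact congrArg Multiplicative.toAdd (DFunLike.congr_fun h1 w)
  ext i j
  exact h _ _

/-- Part 1. Let `B` be the matrix of the automorphism `β` of the free group of rank two and let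
`det (B - 1) ≠ 0` (the first Betti number of `BundleGroup β` is one). Every finitely presented
LERF group `Λ` with the same finite quotients as `BundleGroup β` is isomorphic to the group of a
once-punctured torus bundle, whose matrix has the same determinant, trace and content as `B`; and
`Λ` is isomorphic to `BundleGroup β` if `B` is up to conjugacy in `GL(2, ℤ)` the only matrix with its
determinant, trace and content.

Part 2. Let `N₀` be a normal subgroup of `Γ` with infinite cyclic quotient which is finitely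
generated and profinitely rigid, and let every homomorphism `Γ → ℤ` be trivial on `N₀`. Every finitely
presented LERF group with the same finite quotients as `Γ` has a normal subgroup isomorphic to
`N₀`, with infinite cyclic quotient. -/
theorem result :
    (∀ β : MulAut (FreeGroup (Fin 2)), (abMat β - 1).det ≠ 0 →
      ∀ (Λ : Type) [Group Λ], Group.IsFinitelyPresented Λ → LERF Λ →
      SameFiniteQuotients Λ (BundleGroup β) →
      (∃ γ : MulAut (FreeGroup (Fin 2)), Nonempty (Λ ≃* BundleGroup γ) ∧
        (abMat γ).det = (abMat β).det ∧ (abMat γ).trace = (abMat β).trace ∧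
        content (abMat γ) = content (abMat β)) ∧
      ((∀ A : GL (Fin 2) ℤ, A.val.det = (abMat β).det → A.val.trace = (abMat β).trace →
        content A.val = content (abMat β) → ∃ X : GL (Fin 2) ℤ, X.val * A.val = abMat β * X.val) →
      Nonempty (Λ ≃* BundleGroup β))) ∧
    (∀ (Γ : Type) [Group Γ] (N₀ : Subgroup Γ) (_ : N₀.Normal),
      Nonempty (Γ ⧸ N₀ ≃* Multiplicative ℤ) → N₀.FG → ProfinitelyRigid N₀ →
      (∀ f : Γ →* Multiplicative ℤ, N₀ ≤ f.ker) →
      ∀ (Λ : Type) [Group Λ], Group.IsFinitelyPresented Λ → LERF Λ → SameFiniteQuotients Λ Γ →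
      ∃ (N : Subgroup Λ) (_ : N.Normal), Nonempty (Λ ⧸ N ≃* Multiplicative ℤ) ∧
        Nonempty (N ≃* N₀)) := by
  refine ⟨fun β hβ Λ _ hfp hΛ h => ?_, fun Γ _ N₀ hn ⟨e⟩ hfg hr hb Λ _ hfp hΛ h => ?_⟩
  · rw [abMat_eq] at hβ
    obtain ⟨γ, ⟨e⟩, h1, h2, h3⟩ := LF.bundles β hβ Λ hfp hΛ h
    refine ⟨⟨γ, ⟨e⟩, ?_, ?_, ?_⟩, fun hcl => ?_⟩
    · rw [abMat_eq, abMat_eq, h1]
    · rw [abMat_eq, abMat_eq, h2]
    · rw [abMat_eq, abMat_eq]
      exact h3
    · obtain ⟨X, hX⟩ := hcl (F2X.AM γ) (by rw [abMat_eq, h1]) (by rw [abMat_eq, h2])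
        (by rw [abMat_eq]; exact h3)
      rw [abMat_eq] at hX
      obtain ⟨e'⟩ := LF.p_E3 β γ X (Units.ext hX)
      exact ⟨e.trans e'⟩
  · let c : Γ →* Multiplicative ℤ := e.toMonoidHom.comp (QuotientGroup.mk' N₀)
    have hk : c.ker = N₀ := by
      ext x
      rw [MonoidHom.mem_ker]
      constructor
      · intro hx
        have h1 : (QuotientGroup.mk' N₀) x = 1 := by
          apply e.injective
          rw [map_one]
          exact hx
        exact (QuotientGroup.eq_one_iff x).1 h1
      · intro hx
        have h1 : (QuotientGroup.mk' N₀) x = 1 := (QuotientGroup.eq_one_iff x).2 hx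
        show e ((QuotientGroup.mk' N₀) x) = 1
        rw [h1, map_one]
    have hc : Function.Surjective c := e.surjective.comp (QuotientGroup.mk'_surjective N₀)
    have e0 : c.ker ≃* N₀ := MulEquiv.subgroupCongr hk
    obtain ⟨χ, hχ, ⟨e1⟩⟩ := LF.fibre c hc (by rw [hk]; exact hfg) (by
      rw [hk]; exact hr) (fun f => by rw [hk]; exact hb f) Λ hfp hΛ h
    exact ⟨χ.ker, inferInstance, ⟨QuotientGroup.quotientKerEquivOfSurjective χ hχ⟩,
      ⟨e1.trans e0⟩⟩

theorem c5_pow (n : ℕ) : (LF.C5 ^ (n + 1)).det = 1 ∧ 5 ≤ (LF.C5 ^ (n + 1)).trace := by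
  have hd : ∀ k : ℕ, (LF.C5 ^ k).det = 1 := fun k => by
    rw [Matrix.det_pow, show LF.C5.det = 1 by decide, one_pow]
  have hC : LF.C5 * LF.C5 = 5 • LF.C5 - 1 := by decide
  have hrec : ∀ k : ℕ, (LF.C5 ^ (k + 2)).trace = 5 * (LF.C5 ^ (k + 1)).trace - (LF.C5 ^ k).trace := by
    intro k
    rw [pow_add, pow_two, hC, mul_sub, mul_one, Matrix.trace_sub, Matrix.mul_smul,
      Matrix.trace_smul, ← pow_succ]
    simp
  have h : ∀ k : ℕ, 5 ≤ (LF.C5 ^ (k + 1)).trace ∧ (LF.C5 ^ k).trace ≤ (LF.C5 ^ (k + 1)).trace := by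
    intro k
    induction k with
    | zero => constructor <;> decide
    | succ k ih =>
      have h1 := hrec k
      constructor <;> (rw [show k + 1 + 1 = k + 2 from rfl, h1]; linarith [ih.1, ih.2])
  exact ⟨hd _, (h n).1⟩

/-- An example: the bundle groups whose matrix is a power of `[[4, 3], [1, 1]]` (trace `5`; these bundles are
not arithmetic) are isomorphic to all finitely presented LERF groups with the same finite
quotients. -/
theorem trace_five (n : ℕ) (β : MulAut (FreeGroup (Fin 2)))
    (hβ : abMat β = !![4, 3; 1, 1] ^ (n + 1)) (Λ : Type) [Group Λ]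
    (hfp : Group.IsFinitelyPresented Λ) (hΛ : LERF Λ)
    (h : SameFiniteQuotients Λ (BundleGroup β)) : Nonempty (Λ ≃* BundleGroup β) := by
  have hβ' : abMat β = LF.C5 ^ (n + 1) := hβ
  obtain ⟨h1, h2⟩ := c5_pow n
  refine (result.1 β ?_ Λ hfp hΛ h).2 ?_
  · rw [hβ']
    have h3 : ∀ M : Matrix (Fin 2) (Fin 2) ℤ, (M - 1).det = M.det - M.trace + 1 := fun M => by
      rw [Matrix.det_fin_two, Matrix.det_fin_two, Matrix.trace_fin_two]
      simp
      ring
    rw [h3, h1]
    intro h4
    linarith
  · intro A hA1 hA2 hA3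
    rw [hβ'] at hA1 hA2 hA3 ⊢
    exact LF.p_c5N LF.p_c5 (n + 1) (Nat.le_add_left 1 n) A hA1 hA2 hA3

end Pool.Agent.Results.MP_305fdd_al.AmongSeparableGroups
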