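import Pool.Agent.Lib.MP_305fdd_al.To.F.Main
import Pool.Agent.Lib.MP_305fdd_al.To.Asm.Fin

/-!
# MP_305fdd_al: every lattice of `PSL(2, ℝ)` is profinitely rigid

The half of the problem which concerns `PSL(2, ℝ)`, in the words of the frozen statement `S01087`:
cocompact and not cocompact lattices, with or without torsion.
-/

set_option autoImplicit false

namespace Pool.Agent.Results.MP_305fdd_al.LatticesOfPSL2R

/-- Let `Γ` be a discrete subgroup of `SL(2, ℝ)` of finite covolume. Its image in `PSL(2, ℝ)` is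
isomorphic to every finitely generated residually finite group which has exactly the same finite
quotients. -/
theorem result :
    ∀ Γ : Subgroup (Matrix.SpecialLinearGroup (Fin 2) ℝ),
    (∃ ε : ℝ, 0 < ε ∧ ∀ γ ∈ Γ,
      (∀ i j, ‖(γ : Matrix (Fin 2) (Fin 2) ℝ) i j - (1 : Matrix (Fin 2) (Fin 2) ℝ) i j‖ < ε) → γ = 1) →
    (∃ F : Set (Matrix.SpecialLinearGroup (Fin 2) ℝ),
      (∀ g : Matrix.SpecialLinearGroup (Fin 2) ℝ, ∃ γ ∈ Γ, ∃ f ∈ F, g = γ * f) ∧
      MeasureTheory.volume {M : Fin 2 → Fin 2 → ℝ | ∃ f ∈ F, ∃ z : ℝ, z ≠ 0 ∧ ‖z‖ ≤ 1 ∧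
        M = fun i j => z * (f : Matrix (Fin 2) (Fin 2) ℝ) i j} < ⊤) →
    ∀ (Λ : Type) [Group Λ], Group.FG Λ →
      (∀ x : Λ, x ≠ 1 → ∃ (Q : Type) (_ : Group Q) (_ : Finite Q) (φ : Λ →* Q), φ x ≠ 1) →
      (∀ (Q : Type) [Group Q] [Finite Q],
        (∃ φ : Λ →* Q, Function.Surjective φ) ↔
        (∃ φ : ↥(Γ.map (QuotientGroup.mk' (Subgroup.center (Matrix.SpecialLinearGroup (Fin 2) ℝ)))) →* Q,
          Function.Surjective φ)) →
      Nonempty (Λ ≃* ↥(Γ.map (QuotientGroup.mk' (Subgroup.center (Matrix.SpecialLinearGroup (Fin 2) ℝ))))) :=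
  Pool.Agent.ToF.real_half Pool.Agent.ToF.p_FP Pool.Agent.ToAsm.p_CO Pool.Agent.ToF.p_FR

end Pool.Agent.Results.MP_305fdd_al.LatticesOfPSL2R
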