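import Pool.Agent.Lib.MP_305fdd_al.Reg.Main

/-!
# MP_305fdd_al: transfer of representations in `SL₂` of an order, in the absolute sense

`G` and `H` are groups, `H` is finitely generated, and `Φ` is an isomorphism of their profinite completions.
Let `G` have a subgroup of finite index which is isomorphic to a subgroup of finite index of some `F ⋊ ℤ`, `F`
free of finite rank, the generator of `ℤ` acting by a positive automorphism, or of the group `F₂ ⋊ ℤ` of a
hyperbolic once-punctured torus bundle.

Then for every sufficiently small subgroup `D` of finite index of `G` and the corresponding subgroup `L` of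
`H` the following holds. Let `A` be a domain whose additive group is free of finite rank (an order of a number
field) and `ρ₀` a representation of `D` in `SL₂(A)` which is irreducible on the commutator subgroups of all
subgroups of finite index. Then there is a function `T : L → A` with the same irreducibility, whose values
generate the same subring of `A` as the traces of `ρ₀`. Under every homomorphism from `A` to an algebraically
closed field `k` it becomes the character of a representation of `L` in `SL₂(k)`, and under every homomorphism
from `A` to a finite ring the character of the representation of `L` which corresponds to `ρ₀` under `Φ`.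
-/

set_option autoImplicit false

namespace Pool.Agent.Results.MP_305fdd_al.RepresentationTransfer

open Pool.Agent.MP_305fdd_al.Reg

theorem result (G H : Type) [Group G] [Group H] [Group.FG H] (Φ : ProIso G H)
    (hG : ∃ (D : Subgroup G) (p : D →* Multiplicative ℤ), D.FiniteIndex ∧ Fibration p) :
    ∃ D₀ : Subgroup G, D₀.FiniteIndex ∧ ∀ D ≤ D₀, D.FiniteIndex →
      ∃ (L : Subgroup H) (Ψ : ProIso D L), L.FiniteIndex ∧ Φ.Restricts Ψ ∧
        ∀ (A : Type) [CommRing A] [IsDomain A] [Module.Free ℤ A] [Module.Finite ℤ A]
          (ρ₀ : D →* Matrix.SpecialLinearGroup (Fin 2) A), Irr (chr ρ₀) → Ψ.Transfers ρ₀ := by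
  obtain ⟨D, p, hD, hp⟩ := hG
  exact rep_transfer Φ D p hD hp

end Pool.Agent.Results.MP_305fdd_al.RepresentationTransfer
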